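import Pool.Agent.R944.Tysz.Sys

/-!
# Small rational solutions of systems of equations `x_i = 1`, `x_i + x_j = x_k`

For all complex numbers `x_1, …, x_n` there are rational numbers `y_1, …, y_n` in
`[-2 ^ (n - 1), 2 ^ (n - 1)]` that satisfy all the equations `y_i = 1` and `y_i + y_j = y_k` whose
analogues are satisfied by the `x_i`.

Idea. The coefficient row `e_i + e_j - e_k` is the sum of the row `e_i` and the row `e_j - e_k`; a
square matrix whose rows have at most one entry `1`, at most one entry `-1` and zeros otherwise has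
determinant `0`, `1` or `-1`. So, once a unit row is present, all the minors of order `r` in Cramer's
rule (those with a column replaced by the right-hand side included) are at most `2 ^ (r - 1)`.
-/

set_option autoImplicit false

open Pool.Agent.R944.Tysz

namespace Pool.Agent.Results.MP_e9426e_al.SmallRational

/-- **Q1, affirmative.** For every `n` and all complex numbers `x_1, …, x_n` there are rational
numbers `y_1, …, y_n` in `[-2 ^ (n - 1), 2 ^ (n - 1)]` such that `x_i = 1` implies `y_i = 1` and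
`x_i + x_j = x_k` implies `y_i + y_j = y_k`. Moreover the `y_i` can be written with a common
denominator `D` with `1 ≤ D ≤ 2 ^ (n - 1)`. -/
theorem result (n : ℕ) (x : Fin n → ℂ) :
    ∃ y : Fin n → ℚ, (∀ i, -(2 : ℚ) ^ (n - 1) ≤ y i ∧ y i ≤ 2 ^ (n - 1)) ∧
      (∀ i, x i = 1 → y i = 1) ∧
      (∀ i j k, x i + x j = x k → y i + y j = y k) ∧
      ∃ D : ℕ, 1 ≤ D ∧ D ≤ 2 ^ (n - 1) ∧ ∀ i, ∃ p : ℤ, y i = (p : ℚ) / (D : ℚ) := by
  let ι : Type := {i : Fin n // x i = 1} ⊕ {t : Fin n × Fin n × Fin n // x t.1 + x t.2.1 = x t.2.2}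
  let a : ι → Fin n → ℤ := fun e =>
    match e with
    | .inl i => rowU i.1
    | .inr t => rowA t.1.1 t.1.2.1 t.1.2.2
  let b : ι → ℤ := fun e =>
    match e with
    | .inl _ => 1
    | .inr _ => 0
  have hgood : ∀ e, Good (a e) (b e) := by
    rintro (i | t)
    · exact good_rowU i.1
    · exact good_rowA _ _ _
  have hx : ∀ e : ι, ∑ k, (a e k : ℂ) * x k = b e := by
    rintro (i | t)
    · show ∑ k, ((rowU i.1 k : ℤ) : ℂ) * x k = ((1 : ℤ) : ℂ)
      rw [eval_rowU, i.2]; simp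
    · show ∑ k, ((rowA t.1.1 t.1.2.1 t.1.2.2 k : ℤ) : ℂ) * x k = ((0 : ℤ) : ℂ)
      rw [eval_rowA, t.2]; simp
  obtain ⟨D, p, hD, hDb, hpb, hsol⟩ := rational_main a b x hx hgood
  have hDQ : (D : ℚ) ≠ 0 := by exact_mod_cast hD
  have hsol' : ∀ e : ι, ∑ k, (a e k : ℚ) * ((p k : ℚ) / (D : ℚ)) = b e := by
    intro e
    have h1 : ∑ k, (a e k : ℚ) * (p k : ℚ) = (D : ℚ) * b e := by exact_mod_cast hsol e
    have h2 : ∑ k, (a e k : ℚ) * ((p k : ℚ) / (D : ℚ)) = (∑ k, (a e k : ℚ) * (p k : ℚ)) / (D : ℚ) := by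
      rw [Finset.sum_div]
      exact Finset.sum_congr rfl fun k _ => by ring
    rw [h2, h1]
    field_simp
  have hD1 : (1 : ℚ) ≤ |(D : ℚ)| := by
    have : (1 : ℤ) ≤ |D| := Int.one_le_abs hD
    exact_mod_cast this
  refine ⟨fun k => (p k : ℚ) / (D : ℚ), ?_, ?_, ?_, D.natAbs, ?_, ?_, ?_⟩
  · intro i
    apply abs_le.1
    rw [abs_div]
    have h1 : |(p i : ℚ)| ≤ 2 ^ (n - 1) := by exact_mod_cast hpb i
    calc |(p i : ℚ)| / |(D : ℚ)| ≤ |(p i : ℚ)| / 1 :=
          div_le_div_of_nonneg_left (abs_nonneg _) one_pos hD1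
      _ ≤ 2 ^ (n - 1) := by rw [div_one]; exact h1
  · intro i hi
    have h1 := hsol' (Sum.inl ⟨i, hi⟩)
    have h2 : ∑ k, ((rowU i k : ℤ) : ℚ) * ((p k : ℚ) / (D : ℚ)) = ((1 : ℤ) : ℚ) := h1
    rw [eval_rowU] at h2
    show (p i : ℚ) / (D : ℚ) = 1
    rw [h2]; simp
  · intro i j k hijk
    have h1 := hsol' (Sum.inr ⟨(i, j, k), hijk⟩)
    have h2 : ∑ l, ((rowA i j k l : ℤ) : ℚ) * ((p l : ℚ) / (D : ℚ)) = ((0 : ℤ) : ℚ) := h1
    rw [eval_rowA] at h2
    have h3 : (p i : ℚ) / (D : ℚ) + (p j : ℚ) / (D : ℚ) - (p k : ℚ) / (D : ℚ) = 0 := by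
      rw [h2]; simp
    exact sub_eq_zero.1 h3
  · exact Int.natAbs_pos.2 hD
  · have h1 : ((D.natAbs : ℕ) : ℤ) ≤ 2 ^ (n - 1) := by rw [Int.natCast_natAbs]; exact hDb
    exact_mod_cast h1
  · intro i
    rcases Int.natAbs_eq D with h | h
    · refine ⟨p i, ?_⟩
      have h1 : (D : ℚ) = ((D.natAbs : ℕ) : ℚ) := by
        have : ((D : ℤ) : ℚ) = (((D.natAbs : ℕ) : ℤ) : ℚ) := congrArg _ h
        rw [this]; simp
      show (p i : ℚ) / (D : ℚ) = (p i : ℚ) / ((D.natAbs : ℕ) : ℚ)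
      rw [← h1]
    · refine ⟨-p i, ?_⟩
      have h1 : (D : ℚ) = -((D.natAbs : ℕ) : ℚ) := by
        have : ((D : ℤ) : ℚ) = ((-((D.natAbs : ℕ) : ℤ) : ℤ) : ℚ) := congrArg _ h
        rw [this]; simp
      show (p i : ℚ) / (D : ℚ) = ((-p i : ℤ) : ℚ) / ((D.natAbs : ℕ) : ℚ)
      rw [h1]
      push_cast
      rw [div_neg, neg_div]

end Pool.Agent.Results.MP_e9426e_al.SmallRational
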